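import Pool.Agent.V11192.Chev.Tiling

set_option autoImplicit false

open Set Topology Metric

namespace Pool.Agent.V11192.Chev

/-- Enclosed tile, the tile `T`, the tile between, and the two side tiles. -/
def qU : Fin 10 × ℤ × ℤ := (0, 0, 0)
def qM : Fin 10 × ℤ × ℤ := (1, 0, 0)
def qT : Fin 10 × ℤ × ℤ := (2, 0, 0)
def qX : Fin 10 × ℤ × ℤ := (3, 0, 0)
def qY : Fin 10 × ℤ × ℤ := (4, 0, 0)

theorem mem_U (x y : ℝ) : phi (x, y) ∈ tl qU ↔
    (0 ≤ -x ∧ -x ≤ 2 ∧ 0 ≤ -y ∧ -y ≤ 1) ∨ (-2 ≤ -x ∧ -x ≤ 0 ∧ 0 ≤ -x + -y ∧ -x + -y ≤ 1) := by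
  unfold tl
  rw [mem_tile]
  simp [qU, pos, bx, by', dir, unrot, C0]

theorem mem_M (x y : ℝ) : phi (x, y) ∈ tl qM ↔
    (0 ≤ -x ∧ -x ≤ 2 ∧ 0 ≤ -(y + 1) ∧ -(y + 1) ≤ 1) ∨
      (-2 ≤ -x ∧ -x ≤ 0 ∧ 0 ≤ -x + -(y + 1) ∧ -x + -(y + 1) ≤ 1) := by
  unfold tl
  rw [mem_tile]
  simp [qM, pos, bx, by', dir, unrot, C0]

theorem mem_T (x y : ℝ) : phi (x, y) ∈ tl qT ↔
    (0 ≤ -x ∧ -x ≤ 2 ∧ 0 ≤ -(y + 2) ∧ -(y + 2) ≤ 1) ∨
      (-2 ≤ -x ∧ -x ≤ 0 ∧ 0 ≤ -x + -(y + 2) ∧ -x + -(y + 2) ≤ 1) := by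
  unfold tl
  rw [mem_tile]
  simp [qT, pos, bx, by', dir, unrot, C0]

theorem mem_X (x y : ℝ) : phi (x, y) ∈ tl qX ↔
    (0 ≤ -(x + 3) - (y - 1) ∧ -(x + 3) - (y - 1) ≤ 2 ∧ 0 ≤ x + 3 ∧ x + 3 ≤ 1) ∨
      (-2 ≤ -(x + 3) - (y - 1) ∧ -(x + 3) - (y - 1) ≤ 0 ∧ 0 ≤ -(x + 3) - (y - 1) + (x + 3) ∧
        -(x + 3) - (y - 1) + (x + 3) ≤ 1) := by
  unfold tl
  rw [mem_tile]
  simp only [qX, pos, bx, by', dir, unrot, C0]
  simp

theorem mem_Y (x y : ℝ) : phi (x, y) ∈ tl qY ↔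
    (0 ≤ y + 2 ∧ y + 2 ≤ 2 ∧ 0 ≤ -(x - 3) - (y + 2) ∧ -(x - 3) - (y + 2) ≤ 1) ∨
      (-2 ≤ y + 2 ∧ y + 2 ≤ 0 ∧ 0 ≤ y + 2 + (-(x - 3) - (y + 2)) ∧
        y + 2 + (-(x - 3) - (y + 2)) ≤ 1) := by
  unfold tl
  rw [mem_tile]
  simp only [qY, pos, bx, by', dir, unrot, C0]
  simp

theorem interior_U {x y : ℝ} (h : (x < 0 ∧ -2 < x ∧ y < 0 ∧ -1 < y) ∨
    (0 ≤ x ∧ x < 2 ∧ x + y < 0 ∧ -1 < x + y)) : phi (x, y) ∈ interior (tl qU) := by
  have hopen : IsOpen {p : ℝ × ℝ | -2 < p.1 ∧ p.1 < 2 ∧ p.2 + max 0 p.1 < 0 ∧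
      -1 < p.2 + max 0 p.1} := by
    have a1 : IsOpen {p : ℝ × ℝ | -2 < p.1} := isOpen_lt (by fun_prop) (by fun_prop)
    have a2 : IsOpen {p : ℝ × ℝ | p.1 < 2} := isOpen_lt (by fun_prop) (by fun_prop)
    have a3 : IsOpen {p : ℝ × ℝ | p.2 + max 0 p.1 < 0} := isOpen_lt (by fun_prop) (by fun_prop)
    have a4 : IsOpen {p : ℝ × ℝ | -1 < p.2 + max 0 p.1} := isOpen_lt (by fun_prop) (by fun_prop)
    exact a1.inter (a2.inter (a3.inter a4))
  rw [mem_interior]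
  refine ⟨phi '' {p : ℝ × ℝ | -2 < p.1 ∧ p.1 < 2 ∧ p.2 + max 0 p.1 < 0 ∧
      -1 < p.2 + max 0 p.1}, ?_, phi.isOpenMap _ hopen, ?_⟩
  · rintro _ ⟨⟨u, v⟩, ⟨h1, h2, h3, h4⟩, rfl⟩
    simp only at h1 h2 h3 h4
    rw [mem_U]
    rcases le_total 0 u with hu | hu
    · rw [max_eq_right hu] at h3 h4
      right
      refine ⟨by linarith, by linarith, by linarith, by linarith⟩
    · rw [max_eq_left hu] at h3 h4
      left
      refine ⟨by linarith, by linarith, by linarith, by linarith⟩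
  · refine ⟨(x, y), ?_, rfl⟩
    rcases h with ⟨h1, h2, h3, h4⟩ | ⟨h1, h2, h3, h4⟩
    · refine ⟨by simp only; linarith, by simp only; linarith, ?_, ?_⟩
      · simp only [max_eq_left h1.le]; linarith
      · simp only [max_eq_left h1.le]; linarith
    · refine ⟨by simp only; linarith, by simp only; linarith, ?_, ?_⟩
      · simp only [max_eq_right h1]; linarith
      · simp only [max_eq_right h1]; linarith

theorem frontier_U {x y : ℝ} (h : phi (x, y) ∈ tl qU) (h' : phi (x, y) ∉ interior (tl qU)) :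
    phi (x, y) ∈ tl qM ∨ phi (x, y) ∈ tl qX ∨ phi (x, y) ∈ tl qY := by
  rw [mem_U] at h
  have h2 : ¬ ((x < 0 ∧ -2 < x ∧ y < 0 ∧ -1 < y) ∨
    (0 ≤ x ∧ x < 2 ∧ x + y < 0 ∧ -1 < x + y)) := fun hh => h' (interior_U hh)
  push Not at h2
  obtain ⟨g1, g2⟩ := h2
  rw [mem_M, mem_X, mem_Y]
  rcases lt_or_ge x 0 with hx | hx
  · have g1' := g1 hx
    have h3 : 0 ≤ -x ∧ -x ≤ 2 ∧ 0 ≤ -y ∧ -y ≤ 1 := by
      rcases h with h | ⟨-, h, -, -⟩
      · exact h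
      · linarith
    obtain ⟨h3, h4, h5, h6⟩ := h3
    rcases lt_or_ge (-2) x with hx2 | hx2
    · rcases lt_or_ge y 0 with hy | hy
      · -- bottom
        have := g1' hx2 hy
        left; left
        refine ⟨by linarith, by linarith, by linarith, by linarith⟩
      · -- top: y = 0
        have hy0 : y = 0 := by linarith
        subst hy0
        right; left
        rcases le_total x (-2) with hh | hh
        · left; refine ⟨by linarith, by linarith, by linarith, by linarith⟩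
        · right; refine ⟨by linarith, by linarith, by linarith, by linarith⟩
    · -- x = -2
      have hx0 : x = -2 := by linarith
      subst hx0
      right; left; left
      refine ⟨by linarith, by linarith, by linarith, by linarith⟩
  · have h3 : x ≤ 2 ∧ 0 ≤ -x + -y ∧ -x + -y ≤ 1 := by
      rcases h with ⟨a, b, c, d⟩ | ⟨a, b, c, d⟩
      · have : x = 0 := by linarith
        subst this
        refine ⟨by linarith, by linarith, by linarith⟩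
      · refine ⟨by linarith, by linarith, by linarith⟩
    obtain ⟨h3, h4, h5⟩ := h3
    rcases lt_or_ge x 2 with hx2 | hx2
    · rcases lt_or_ge (x + y) 0 with hy | hy
      · have := g2 hx hx2 hy
        left; right
        refine ⟨by linarith, by linarith, by linarith, by linarith⟩
      · have hy0 : y = -x := by linarith
        subst hy0
        right; right; left
        refine ⟨by linarith, by linarith, by linarith, by linarith⟩
    · have hx0 : x = 2 := by linarith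
      subst hx0
      right; right; right
      refine ⟨by linarith, by linarith, by linarith, by linarith⟩

theorem touch_M : (tl qM ∩ tl qT).Nonempty := by
  refine ⟨phi (0, -2), ?_, ?_⟩
  · rw [mem_M]; norm_num
  · rw [mem_T]; norm_num

theorem touch_X : (tl qX ∩ tl qT).Nonempty := by
  refine ⟨phi (-2, -2), ?_, ?_⟩
  · rw [mem_X]; norm_num
  · rw [mem_T]; norm_num

theorem touch_Y : (tl qY ∩ tl qT).Nonempty := by
  refine ⟨phi (2, -4), ?_, ?_⟩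
  · rw [mem_Y]; norm_num
  · rw [mem_T]; norm_num

theorem not_touch_U : ¬ (tl qU ∩ tl qT).Nonempty := by
  rintro ⟨v, h1, h2⟩
  obtain ⟨⟨x, y⟩, rfl⟩ := phi.surjective v
  rw [mem_U] at h1
  rw [mem_T] at h2
  rcases h1 with ⟨a1, a2, a3, a4⟩ | ⟨a1, a2, a3, a4⟩ <;>
  rcases h2 with ⟨b1, b2, b3, b4⟩ | ⟨b1, b2, b3, b4⟩ <;> linarith

theorem exists_H_tile (q : Fin 10 × ℤ × ℤ) : ∃ H : E ≃ₜ E, H '' closedBall 0 1 = tl q := by
  obtain ⟨H, hH⟩ := exists_H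
  refine ⟨H.trans (tiso (pos q.1 q.2.1 q.2.2) (dir q.1)).toHomeomorph, ?_⟩
  unfold tl tile
  rw [← hH, image_image]
  rfl

theorem tl_regular (q : Fin 10 × ℤ × ℤ) : tl q ⊆ closure (interior (tl q)) := by
  obtain ⟨H, hH⟩ := exists_H_tile q
  rw [← hH, ← H.image_interior, ← H.image_closure, interior_closedBall _ one_ne_zero,
    closure_ball _ one_ne_zero]

theorem main : ¬ (∀ (C : Set (EuclideanSpace ℝ (Fin 2))) (𝒯 : Set (Set (EuclideanSpace ℝ (Fin 2)))),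
      Nonempty (C ≃ₜ Metric.closedBall (0 : EuclideanSpace ℝ (Fin 2)) 1) →
      (∀ T ∈ 𝒯, ∃ f : EuclideanSpace ℝ (Fin 2) ≃ᵢ EuclideanSpace ℝ (Fin 2), T = f '' C) →
      ⋃₀ 𝒯 = Set.univ →
      𝒯.Pairwise (fun A B => Disjoint (interior A) (interior B)) →
      ∀ T ∈ 𝒯, SimplyConnectedSpace (⋃₀ {T' ∈ 𝒯 | (T' ∩ T).Nonempty})) := by
  intro hall
  have hC : Nonempty (CC ≃ₜ Metric.closedBall (0 : E) 1) := by
    obtain ⟨H, hH⟩ := exists_H
    rw [← hH]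
    exact ⟨(H.image _).symm⟩
  have hsc := hall CC TT hC (by
    rintro _ ⟨q, rfl⟩
    exact ⟨tiso (pos q.1 q.2.1 q.2.2) (dir q.1), rfl⟩) TT_cover TT_disjoint (tl qT) ⟨qT, rfl⟩
  revert hsc
  obtain ⟨H, hH⟩ := exists_H_tile qU
  apply not_simplyConnected H
  · rintro _ ⟨v, hv, rfl⟩
    have hv1 : H v ∈ tl qU := by
      rw [← hH]
      exact ⟨v, sphere_subset_closedBall hv, rfl⟩
    have hv2 : H v ∉ interior (tl qU) := by
      rw [← hH, ← H.image_interior, interior_closedBall _ one_ne_zero]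
      rintro ⟨w, hw, hwv⟩
      have := H.injective hwv
      subst this
      rw [mem_sphere] at hv
      rw [mem_ball] at hw
      linarith
    obtain ⟨⟨x, y⟩, hxy⟩ := phi.surjective (H v)
    rw [← hxy] at hv1 hv2 ⊢
    rcases frontier_U hv1 hv2 with h | h | h
    · exact ⟨_, ⟨⟨qM, rfl⟩, touch_M⟩, h⟩
    · exact ⟨_, ⟨⟨qX, rfl⟩, touch_X⟩, h⟩
    · exact ⟨_, ⟨⟨qY, rfl⟩, touch_Y⟩, h⟩
  · rintro ⟨_, ⟨⟨q, rfl⟩, hq⟩, h0⟩
    have h0U : H 0 ∈ interior (tl qU) := by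
      rw [← hH, ← H.image_interior, interior_closedBall _ one_ne_zero]
      exact ⟨0, by simp, rfl⟩
    have hne : tl q ≠ tl qU := by
      intro h
      rw [h] at hq
      exact not_touch_U hq
    have hdis := TT_disjoint ⟨q, rfl⟩ ⟨qU, rfl⟩ hne
    have hcl : H 0 ∈ closure (interior (tl q)) := tl_regular q h0
    rw [_root_.mem_closure_iff] at hcl
    obtain ⟨w, hw1, hw2⟩ := hcl _ isOpen_interior h0U
    exact Set.disjoint_left.mp hdis hw2 hw1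

end Pool.Agent.V11192.Chev
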