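import Mathlib

set_option autoImplicit false

namespace Pool.Agent.V11192.Chev

/-- The cells of the four rotated copies of the chevron. -/
def cells : Fin 4 → List (ℤ × ℤ × Bool)
  | 0 => [(-2, 1, true), (-2, 2, false), (-1, 0, true), (-1, 1, false), (0, 0, false), (0, 0, true),
      (1, 0, false), (1, 0, true)]
  | 1 => [(-3, 1, true), (-2, 0, true), (-2, 1, false), (-1, -2, false), (-1, -2, true),
      (-1, -1, false), (-1, -1, true), (-1, 0, false)]
  | 2 => [(-2, -1, false), (-2, -1, true), (-1, -1, false), (-1, -1, true), (0, -2, true),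
      (0, -1, false), (1, -3, true), (1, -2, false)]
  | 3 => [(0, -3, true), (0, -2, false), (0, -2, true), (0, -1, false), (0, -1, true),
      (1, -1, false), (1, -1, true), (2, -1, false)]

/-- The ten base tiles: position and rotation code. -/
def bx : Fin 10 → ℤ := ![0, 0, 0, -3, 3, 16, 10, 10, 0, 10]
def by' : Fin 10 → ℤ := ![0, -1, -2, 1, -2, 0, 0, 0, 0, 0]
def dir : Fin 10 → Fin 4 := ![2, 2, 2, 3, 1, 2, 1, 3, 0, 0]

theorem cover_check : ∀ (a : Fin 20) (b : Fin 2) (t : Bool), ∃ k : Fin 10, ∃ c ∈ cells (dir k),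
    c.2.2 = t ∧ (((a : ℕ) : ℤ) - (bx k + c.1 - 3 * (by' k + c.2.1))) % 20 = 0 ∧
      (((b : ℕ) : ℤ) - (by' k + c.2.1)) % 2 = 0 := by
  decide +kernel

theorem unique_check : ∀ (k k' : Fin 10), ∀ c ∈ cells (dir k), ∀ c' ∈ cells (dir k'),
    c.2.2 = c'.2.2 →
    ((bx k + c.1 - 3 * (by' k + c.2.1)) - (bx k' + c'.1 - 3 * (by' k' + c'.2.1))) % 20 = 0 →
    (by' k + c.2.1 - by' k' - c'.2.1) % 2 = 0 → k = k' ∧ c = c' := by
  decide +kernel

theorem cover_cell (i j : ℤ) (t : Bool) : ∃ (k : Fin 10) (m n : ℤ),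
    (i - (bx k + 20 * m + 6 * n), j - (by' k + 2 * n), t) ∈ cells (dir k) := by
  have h1 : (0 : ℤ) ≤ (i - 3 * j) % 20 := Int.emod_nonneg _ (by norm_num)
  have h2 : (i - 3 * j) % 20 < 20 := Int.emod_lt_of_pos _ (by norm_num)
  have h3 : (0 : ℤ) ≤ j % 2 := Int.emod_nonneg _ (by norm_num)
  have h4 : j % 2 < 2 := Int.emod_lt_of_pos _ (by norm_num)
  obtain ⟨k, c, hc, ht, ha, hb⟩ := cover_check ⟨((i - 3 * j) % 20).toNat, by omega⟩
    ⟨(j % 2).toNat, by omega⟩ t
  simp only [Int.toNat_of_nonneg h1, Int.toNat_of_nonneg h3] at ha hb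
  obtain ⟨c1, c2, c3⟩ := c
  simp only at ha hb ht
  refine ⟨k, (i - bx k - c1 - 3 * (j - by' k - c2)) / 20, (j - by' k - c2) / 2, ?_⟩
  have e1 : (j - (by' k + 2 * ((j - by' k - c2) / 2))) = c2 := by omega
  have e2 : (i - (bx k + 20 * ((i - bx k - c1 - 3 * (j - by' k - c2)) / 20)
      + 6 * ((j - by' k - c2) / 2))) = c1 := by omega
  rw [e1, e2, ← ht]
  exact hc

theorem unique_cell (i j : ℤ) (t : Bool) (k k' : Fin 10) (m n m' n' : ℤ)
    (h : (i - (bx k + 20 * m + 6 * n), j - (by' k + 2 * n), t) ∈ cells (dir k))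
    (h' : (i - (bx k' + 20 * m' + 6 * n'), j - (by' k' + 2 * n'), t) ∈ cells (dir k')) :
    k = k' ∧ m = m' ∧ n = n' := by
  obtain ⟨hk, hc⟩ := unique_check k k' _ h _ h' rfl (by simp only; omega) (by simp only; omega)
  subst hk
  simp only [Prod.mk.injEq, and_true] at hc
  refine ⟨rfl, by omega, by omega⟩

end Pool.Agent.V11192.Chev
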