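import Pool.Agent.V11192.Chev.Top
import Pool.Agent.V11192.Chev.Cells

set_option autoImplicit false

open Set Topology Metric

namespace Pool.Agent.V11192.Chev

theorem s3ne : (√3 : ℝ) ≠ 0 := by positivity

/-- Triangular-lattice coordinates. -/
noncomputable def phi : (ℝ × ℝ) ≃ₜ E where
  toFun p := !₂[p.1 + p.2 / 2, √3 / 2 * p.2]
  invFun v := (v 0 - v 1 / √3, 2 * v 1 / √3)
  left_inv := by
    rintro ⟨x, y⟩
    have := s3ne
    ext
    · simp; field_simp; try ring
    · simp; field_simp
  right_inv := by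
    intro v
    have := s3ne
    ext i
    fin_cases i
    · simp; field_simp; try ring
    · simp
  continuous_toFun := by
    refine (PiLp.continuous_toLp 2 _).comp ?_
    refine continuous_pi ?_
    intro i
    fin_cases i
    · simp; fun_prop
    · simp; fun_prop
  continuous_invFun := by fun_prop

theorem phi_apply (p : ℝ × ℝ) : phi p = !₂[p.1 + p.2 / 2, √3 / 2 * p.2] := rfl

theorem dist_phi (p q : ℝ × ℝ) : dist (phi p) (phi q) =
    √((p.1 - q.1) ^ 2 + (p.1 - q.1) * (p.2 - q.2) + (p.2 - q.2) ^ 2) := by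
  rw [EuclideanSpace.dist_eq]
  congr 1
  simp only [phi_apply, Fin.sum_univ_two, Real.dist_eq, sq_abs]
  have h3 : (√3 : ℝ) ^ 2 = 3 := Real.sq_sqrt (by norm_num)
  simp
  ring_nf
  rw [h3]
  ring

theorem phi_linear : IsLinearMap ℝ phi := by
  constructor
  · intro p q
    ext i
    fin_cases i
    · simp [phi_apply]; ring
    · simp [phi_apply]; ring
  · intro c p
    ext i
    fin_cases i
    · simp [phi_apply]; ring
    · simp [phi_apply]; ring

/-- Rotations by 0, 120, 180, 240 degrees in triangular coordinates. -/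
def rot : Fin 4 → (ℝ × ℝ) → (ℝ × ℝ)
  | 0, p => p
  | 1, p => (-p.1 - p.2, p.1)
  | 2, p => (-p.1, -p.2)
  | 3, p => (p.2, -p.1 - p.2)

def unrot : Fin 4 → (ℝ × ℝ) → (ℝ × ℝ)
  | 0, p => p
  | 1, p => (p.2, -p.1 - p.2)
  | 2, p => (-p.1, -p.2)
  | 3, p => (-p.1 - p.2, p.1)

theorem rot_unrot (d : Fin 4) (p : ℝ × ℝ) : rot d (unrot d p) = p := by
  obtain ⟨x, y⟩ := p
  fin_cases d <;> simp [rot, unrot] <;> ring

theorem unrot_rot (d : Fin 4) (p : ℝ × ℝ) : unrot d (rot d p) = p := by
  obtain ⟨x, y⟩ := p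
  fin_cases d <;> simp [rot, unrot] <;> ring

/-- The isometry carrying the base chevron to the tile at position `A` with rotation `d`. -/
noncomputable def tiso (A : ℝ × ℝ) (d : Fin 4) : E ≃ᵢ E where
  toFun v := phi (A + rot d (phi.symm v))
  invFun v := phi (unrot d (phi.symm v - A))
  left_inv := by intro v; simp [unrot_rot]
  right_inv := by intro v; simp [rot_unrot]
  isometry_toFun := by
    refine Isometry.of_dist_eq ?_
    intro v w
    obtain ⟨p, rfl⟩ := phi.surjective v
    obtain ⟨q, rfl⟩ := phi.surjective w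
    simp only [Homeomorph.symm_apply_apply]
    rw [dist_phi, dist_phi]
    congr 1
    fin_cases d <;> simp [rot] <;> ring

def C0 : Set (ℝ × ℝ) := {p | (0 ≤ p.1 ∧ p.1 ≤ 2 ∧ 0 ≤ p.2 ∧ p.2 ≤ 1) ∨
  (-2 ≤ p.1 ∧ p.1 ≤ 0 ∧ 0 ≤ p.1 + p.2 ∧ p.1 + p.2 ≤ 1)}

/-- The chevron. -/
def CC : Set E := phi '' C0

def tile (A : ℝ × ℝ) (d : Fin 4) : Set E := tiso A d '' CC

theorem mem_tile (A : ℝ × ℝ) (d : Fin 4) (p : ℝ × ℝ) : phi p ∈ tile A d ↔ unrot d (p - A) ∈ C0 := by
  unfold tile CC
  constructor
  · rintro ⟨_, ⟨q, hq, rfl⟩, h⟩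
    have h' : phi (A + rot d (phi.symm (phi q))) = phi p := h
    rw [Homeomorph.symm_apply_apply] at h'
    have h2 := phi.injective h'
    rw [← h2]
    simpa [unrot_rot] using hq
  · intro h
    refine ⟨_, ⟨_, h, rfl⟩, ?_⟩
    show phi (A + rot d (phi.symm (phi _))) = phi p
    rw [Homeomorph.symm_apply_apply, rot_unrot]
    simp

/-- closed triangle in cell coordinates -/
def tri (t : Bool) (a b : ℝ) : Prop :=
  if t then a ≤ 1 ∧ b ≤ 1 ∧ 1 ≤ a + b else 0 ≤ a ∧ 0 ≤ b ∧ a + b ≤ 1

theorem cell_in (d : Fin 4) (i j : ℤ) (t : Bool) (a b : ℝ) (h : (i, j, t) ∈ cells d)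
    (hab : tri t a b) : unrot d ((i : ℝ) + a, (j : ℝ) + b) ∈ C0 := by
  fin_cases d <;> simp only [cells, List.mem_cons, Prod.mk.injEq, List.not_mem_nil, or_false,
    Fin.zero_eta, Fin.mk_one, Fin.reduceFinMk] at h <;>
  rcases h with h | h | h | h | h | h | h | h <;> obtain ⟨rfl, rfl, rfl⟩ := h <;>
  simp [tri] at hab <;>
  simp only [unrot, C0, mem_ofPred_eq] <;> push_cast <;>
  first
  | (left; refine ⟨?_, ?_, ?_, ?_⟩ <;> linarith)
  | (right; refine ⟨?_, ?_, ?_, ?_⟩ <;> linarith)

theorem int_le {n c : ℤ} {w : ℝ} (h : (c : ℝ) ≤ w) (h2 : w < n + 1) : c ≤ n := by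
  have : (c : ℝ) < n + 1 := lt_of_le_of_lt h h2
  have : c < n + 1 := by exact_mod_cast this
  omega

theorem int_ge {n c : ℤ} {w : ℝ} (h : w ≤ (c : ℝ)) (h2 : (n : ℝ) < w) : n + 1 ≤ c := by
  have : (n : ℝ) < c := lt_of_lt_of_le h2 h
  have : n < c := by exact_mod_cast this
  omega

/-- open triangle in cell coordinates -/
def otri (t : Bool) (a b : ℝ) : Prop :=
  0 < a ∧ a < 1 ∧ 0 < b ∧ b < 1 ∧ (if t then 1 < a + b else a + b < 1)

theorem cell_out (d : Fin 4) (i j : ℤ) (t : Bool) (a b : ℝ) (hab : otri t a b)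
    (h : unrot d ((i : ℝ) + a, (j : ℝ) + b) ∈ C0) : (i, j, t) ∈ cells d := by
  obtain ⟨ha0, ha1, hb0, hb1, hab⟩ := hab
  -- bounds: x in (i, i+1), y in (j, j+1), x + y in (s, s+1)
  obtain ⟨s, hs, hs0, hs1⟩ : ∃ s : ℤ, (s = i + j + (if t then 1 else 0)) ∧
      (s : ℝ) < (i : ℝ) + a + ((j : ℝ) + b) ∧ (i : ℝ) + a + ((j : ℝ) + b) < s + 1 := by
    refine ⟨_, rfl, ?_, ?_⟩
    · cases t <;> simp at hab ⊢ <;> linarith
    · cases t <;> simp at hab ⊢ <;> linarith
  set x : ℝ := (i : ℝ) + a with hx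
  set y : ℝ := (j : ℝ) + b with hy
  have hx0 : (i : ℝ) < x := by linarith
  have hx1 : x < i + 1 := by linarith
  have hy0 : (j : ℝ) < y := by linarith
  have hy1 : y < j + 1 := by linarith
  clear_value x y
  fin_cases d
  · simp only [unrot, C0, mem_ofPred_eq] at h
    rcases h with ⟨h1, h2, h3, h4⟩ | ⟨h1, h2, h3, h4⟩
    · have g1 := int_le (c := 0) (by simpa using h1) hx1
      have g2 := int_ge (c := 2) (by simpa using h2) hx0
      have g3 := int_le (c := 0) (by simpa using h3) hy1
      have g4 := int_ge (c := 1) (by simpa using h4) hy0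
      cases t <;> simp [cells] at hs ⊢ <;> omega
    · have g1 := int_le (c := -2) (by simpa using h1) hx1
      have g2 := int_ge (c := 0) (by simpa using h2) hx0
      have g3 := int_le (c := 0) (by simpa using h3) hs1
      have g4 := int_ge (c := 1) (by simpa using h4) hs0
      cases t <;> simp [cells] at hs ⊢ <;> omega
  · simp only [unrot, C0, mem_ofPred_eq] at h
    rcases h with ⟨h1, h2, h3, h4⟩ | ⟨h1, h2, h3, h4⟩
    · have g1 := int_le (c := 0) (by simpa using h1) hy1
      have g2 := int_ge (c := 2) (by simpa using h2) hy0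
      have g3 := int_ge (c := 0) (w := x + y) (by push_cast; linarith) hs0
      have g4 := int_le (c := -1) (w := x + y) (by push_cast; linarith) hs1
      cases t <;> simp [cells] at hs ⊢ <;> omega
    · have g1 := int_le (c := -2) (by simpa using h1) hy1
      have g2 := int_ge (c := 0) (by simpa using h2) hy0
      have g3 := int_ge (c := 0) (w := x) (by push_cast; linarith) hx0
      have g4 := int_le (c := -1) (w := x) (by push_cast; linarith) hx1
      cases t <;> simp [cells] at hs ⊢ <;> omega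
  · simp only [unrot, C0, mem_ofPred_eq] at h
    rcases h with ⟨h1, h2, h3, h4⟩ | ⟨h1, h2, h3, h4⟩
    · have g1 := int_ge (c := 0) (w := x) (by push_cast; linarith) hx0
      have g2 := int_le (c := -2) (w := x) (by push_cast; linarith) hx1
      have g3 := int_ge (c := 0) (w := y) (by push_cast; linarith) hy0
      have g4 := int_le (c := -1) (w := y) (by push_cast; linarith) hy1
      cases t <;> simp [cells] at hs ⊢ <;> omega
    · have g1 := int_ge (c := 2) (w := x) (by push_cast; linarith) hx0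
      have g2 := int_le (c := 0) (w := x) (by push_cast; linarith) hx1
      have g3 := int_ge (c := 0) (w := x + y) (by push_cast; linarith) hs0
      have g4 := int_le (c := -1) (w := x + y) (by push_cast; linarith) hs1
      cases t <;> simp [cells] at hs ⊢ <;> omega
  · simp only [unrot, C0, mem_ofPred_eq] at h
    rcases h with ⟨h1, h2, h3, h4⟩ | ⟨h1, h2, h3, h4⟩
    · have g1 := int_ge (c := 0) (w := x + y) (by push_cast; linarith) hs0
      have g2 := int_le (c := -2) (w := x + y) (by push_cast; linarith) hs1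
      have g3 := int_le (c := 0) (w := x) (by push_cast; linarith) hx1
      have g4 := int_ge (c := 1) (w := x) (by push_cast; linarith) hx0
      cases t <;> simp [cells] at hs ⊢ <;> omega
    · have g1 := int_ge (c := 2) (w := x + y) (by push_cast; linarith) hs0
      have g2 := int_le (c := 0) (w := x + y) (by push_cast; linarith) hs1
      have g3 := int_ge (c := 0) (w := y) (by push_cast; linarith) hy0
      have g4 := int_le (c := -1) (w := y) (by push_cast; linarith) hy1
      cases t <;> simp [cells] at hs ⊢ <;> omega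

end Pool.Agent.V11192.Chev
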