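import Pool.Agent.V11192.Chev.Geo

set_option autoImplicit false

open Set Topology Metric

namespace Pool.Agent.V11192.Chev

/-- the shear -/
noncomputable def shear : (ℝ × ℝ) ≃ₜ (ℝ × ℝ) where
  toFun p := (p.1, p.2 + max 0 (-p.1))
  invFun p := (p.1, p.2 - max 0 (-p.1))
  left_inv := by intro p; simp
  right_inv := by intro p; simp
  continuous_toFun := by fun_prop
  continuous_invFun := by fun_prop

theorem shear_image : shear '' (Icc (-2 : ℝ) 2 ×ˢ Icc (0 : ℝ) 1) = C0 := by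
  ext ⟨x, y⟩
  constructor
  · rintro ⟨⟨u, v⟩, ⟨⟨h1, h2⟩, ⟨h3, h4⟩⟩, h⟩
    have h' : (u, v + max 0 (-u)) = (x, y) := h
    simp only [Prod.mk.injEq] at h' h1 h2 h3 h4
    obtain ⟨rfl, rfl⟩ := h'
    rcases le_total 0 u with hu | hu
    · left
      have : max 0 (-u) = 0 := max_eq_left (by linarith)
      simp only [this]
      refine ⟨hu, h2, ?_, ?_⟩ <;> linarith
    · right
      have : max 0 (-u) = -u := max_eq_right (by linarith)
      simp only [this]
      refine ⟨h1, hu, ?_, ?_⟩ <;> linarith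
  · rintro (⟨h1, h2, h3, h4⟩ | ⟨h1, h2, h3, h4⟩)
    · simp only at h1 h2 h3 h4
      have : max 0 (-x) = 0 := max_eq_left (by linarith)
      refine ⟨(x, y), ⟨⟨by simp only; linarith, h2⟩, ⟨h3, h4⟩⟩, ?_⟩
      show (x, y + max 0 (-x)) = (x, y)
      rw [this]; simp
    · simp only at h1 h2 h3 h4
      have : max 0 (-x) = -x := max_eq_right (by linarith)
      refine ⟨(x, x + y), ⟨⟨h1, by simp only; linarith⟩, ⟨h3, h4⟩⟩, ?_⟩
      show (x, x + y + max 0 (-x)) = (x, y)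
      rw [this]; simp

theorem exists_H : ∃ H : E ≃ₜ E, H '' closedBall 0 1 = CC := by
  set R : Set (ℝ × ℝ) := Icc (-2 : ℝ) 2 ×ˢ Icc (0 : ℝ) 1 with hR
  have hcomp : IsCompact (phi '' R) := (isCompact_Icc.prod isCompact_Icc).image phi.continuous
  have hconv : Convex ℝ (phi '' R) :=
    ((convex_Icc _ _).prod (convex_Icc _ _)).is_linear_image phi_linear
  have hint : (interior (phi '' R)).Nonempty := by
    rw [← Homeomorph.image_interior, hR, interior_prod_eq, interior_Icc, interior_Icc]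
    exact ⟨phi (0, 1/2), ⟨(0, 1/2), ⟨by norm_num, by norm_num⟩, rfl⟩⟩
  obtain ⟨e, -, he, -⟩ := exists_homeomorph_image_interior_closure_frontier_eq_unitBall hconv hint
    hcomp.isBounded
  rw [hcomp.isClosed.closure_eq] at he
  refine ⟨e.symm.trans (phi.symm.trans (shear.trans phi)), ?_⟩
  rw [← he, image_image, image_image]
  unfold CC
  rw [← shear_image, image_image]
  apply image_congr
  intro a _
  show phi (shear (phi.symm (e.symm (e (phi a))))) = _
  simp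

/-- Real position of the tile `k, m, n`. -/
def pos (k : Fin 10) (m n : ℤ) : ℝ × ℝ :=
  (((bx k + 20 * m + 6 * n : ℤ) : ℝ), ((by' k + 2 * n : ℤ) : ℝ))

def tl (q : Fin 10 × ℤ × ℤ) : Set E := tile (pos q.1 q.2.1 q.2.2) (dir q.1)

def TT : Set (Set E) := range tl

theorem TT_cover : ⋃₀ TT = univ := by
  rw [eq_univ_iff_forall]
  intro v
  obtain ⟨⟨x, y⟩, rfl⟩ := phi.surjective v
  have hx0 := Int.fract_nonneg x
  have hx1 := Int.fract_lt_one x
  have hy0 := Int.fract_nonneg y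
  have hy1 := Int.fract_lt_one y
  obtain ⟨t, ht⟩ : ∃ t : Bool, tri t (Int.fract x) (Int.fract y) := by
    rcases le_total (Int.fract x + Int.fract y) 1 with h | h
    · exact ⟨false, by simp [tri]; exact h⟩
    · exact ⟨true, by simp [tri]; exact ⟨hx1.le, hy1.le, h⟩⟩
  obtain ⟨k, m, n, hc⟩ := cover_cell ⌊x⌋ ⌊y⌋ t
  refine ⟨tl (k, m, n), ⟨_, rfl⟩, ?_⟩
  unfold tl
  rw [mem_tile]
  have := cell_in _ _ _ _ _ _ hc ht
  convert this using 2
  have e1 := Int.self_sub_floor x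
  have e2 := Int.self_sub_floor y
  ext
  · simp [pos]; rw [← e1]; ring
  · simp [pos]; rw [← e2]; ring

/-- Uniqueness at generic points. -/
theorem generic_unique {x y : ℝ} (hx : ∀ i : ℤ, x ≠ i) (hy : ∀ i : ℤ, y ≠ i)
    (hxy : ∀ i : ℤ, x + y ≠ i) {q q' : Fin 10 × ℤ × ℤ} (h : phi (x, y) ∈ tl q)
    (h' : phi (x, y) ∈ tl q') : q = q' := by
  obtain ⟨k, m, n⟩ := q
  obtain ⟨k', m', n'⟩ := q'
  unfold tl at h h'
  rw [mem_tile] at h h'
  have hx0 : 0 < Int.fract x := by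
    rcases (Int.fract_nonneg x).lt_or_eq with h | h
    · exact h
    · exact absurd (by rw [← Int.floor_add_fract x, ← h]; simp : x = (⌊x⌋ : ℤ)) (hx _)
  have hy0 : 0 < Int.fract y := by
    rcases (Int.fract_nonneg y).lt_or_eq with h | h
    · exact h
    · exact absurd (by rw [← Int.floor_add_fract y, ← h]; simp : y = (⌊y⌋ : ℤ)) (hy _)
  have hx1 := Int.fract_lt_one x
  have hy1 := Int.fract_lt_one y
  have hne : Int.fract x + Int.fract y ≠ 1 := by
    intro h
    apply hxy (⌊x⌋ + ⌊y⌋ + 1)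
    have e1 := Int.self_sub_floor x
    have e2 := Int.self_sub_floor y
    push_cast
    linarith
  obtain ⟨t, ht⟩ : ∃ t : Bool, otri t (Int.fract x) (Int.fract y) := by
    rcases lt_or_gt_of_ne hne with h | h
    · exact ⟨false, by simp [otri]; exact ⟨hx0, hx1, hy0, hy1, h⟩⟩
    · exact ⟨true, by simp [otri]; exact ⟨hx0, hx1, hy0, hy1, h⟩⟩
  have e1 := Int.self_sub_floor x
  have e2 := Int.self_sub_floor y
  have c1 := cell_out (dir k) (⌊x⌋ - (bx k + 20 * m + 6 * n)) (⌊y⌋ - (by' k + 2 * n)) t _ _ ht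
    (by
      convert h using 2
      ext
      · simp [pos]; rw [← e1]; ring
      · simp [pos]; rw [← e2]; ring)
  have c2 := cell_out (dir k') (⌊x⌋ - (bx k' + 20 * m' + 6 * n')) (⌊y⌋ - (by' k' + 2 * n')) t _ _ ht
    (by
      convert h' using 2
      ext
      · simp [pos]; rw [← e1]; ring
      · simp [pos]; rw [← e2]; ring)
  obtain ⟨rfl, rfl, rfl⟩ := unique_cell _ _ _ _ _ _ _ _ _ c1 c2
  rfl

theorem exists_generic (U : Set E) (hU : IsOpen U) (hne : U.Nonempty) :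
    ∃ x y : ℝ, phi (x, y) ∈ U ∧ (∀ i : ℤ, x ≠ i) ∧ (∀ i : ℤ, y ≠ i) ∧ (∀ i : ℤ, x + y ≠ i) := by
  obtain ⟨v, hv⟩ := hne
  obtain ⟨⟨x0, y0⟩, rfl⟩ := phi.surjective v
  have hV : IsOpen (phi ⁻¹' U) := hU.preimage phi.continuous
  obtain ⟨A, B, hA, hB, hxA, hyB, hAB⟩ := isOpen_prod_iff.mp hV x0 y0 hv
  have d1 : Dense (range (fun i : ℤ => (i : ℝ)))ᶜ := (countable_range _).dense_compl ℝ
  obtain ⟨x, hx, hxA'⟩ := d1.inter_open_nonempty A hA ⟨x0, hxA⟩
  have d2 : Dense (range (fun i : ℤ => (i : ℝ)) ∪ range (fun i : ℤ => (i : ℝ) - x))ᶜ :=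
    ((countable_range _).union (countable_range _)).dense_compl ℝ
  obtain ⟨y, hy, hyB'⟩ := d2.inter_open_nonempty B hB ⟨y0, hyB⟩
  refine ⟨x, y, hAB ⟨hx, hy⟩, ?_, ?_, ?_⟩
  · intro i h
    exact hxA' ⟨i, h.symm⟩
  · intro i h
    exact hyB' (Or.inl ⟨i, h.symm⟩)
  · intro i h
    exact hyB' (Or.inr ⟨i, by simp only; linarith⟩)

theorem TT_disjoint : TT.Pairwise (fun A B => Disjoint (interior A) (interior B)) := by
  rintro _ ⟨q, rfl⟩ _ ⟨q', rfl⟩ hne
  rw [Set.disjoint_iff_inter_eq_empty]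
  by_contra hcon
  obtain ⟨x, y, hxy, h1, h2, h3⟩ := exists_generic _ (isOpen_interior.inter isOpen_interior)
    (nonempty_iff_ne_empty.mpr hcon)
  exact hne (congrArg tl (generic_unique h1 h2 h3 (interior_subset hxy.1) (interior_subset hxy.2)))

end Pool.Agent.V11192.Chev
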