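import Mathlib

set_option autoImplicit false

open Set Topology Metric unitInterval

namespace Pool.Agent.V11192.Chev

abbrev E := EuclideanSpace ℝ (Fin 2)

/-- The loop `t ↦ (cos 2πt, sin 2πt)`. -/
noncomputable def uu (t : I) : E := !₂[Real.cos (2 * Real.pi * t), Real.sin (2 * Real.pi * t)]

theorem uu_cont : Continuous uu := by
  unfold uu
  refine (PiLp.continuous_toLp 2 _).comp ?_
  refine continuous_pi ?_
  intro i
  fin_cases i
  · simp; fun_prop
  · simp; fun_prop

theorem uu_sphere (t : I) : uu t ∈ sphere (0 : E) 1 := by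
  rw [mem_sphere_zero_iff_norm, EuclideanSpace.norm_eq]
  simp [uu, Fin.sum_univ_two]

/-- complex number of a vector -/
noncomputable def cz (v : E) : ℂ := ⟨v 0, v 1⟩

theorem cz_cont : Continuous cz := by
  have : cz = fun v : E => ((v 0 : ℝ) : ℂ) + ((v 1 : ℝ) : ℂ) * Complex.I := by
    funext v
    apply Complex.ext <;> simp [cz]
  rw [this]
  fun_prop

theorem cz_ne {v : E} (hv : v ≠ 0) : cz v ≠ 0 := by
  intro h
  apply hv
  have h1 := congrArg Complex.re h
  have h2 := congrArg Complex.im h
  simp [cz] at h1 h2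
  ext i
  fin_cases i
  · simpa using h1
  · simpa using h2

theorem not_simplyConnected (h : E ≃ₜ E) (N : Set E) (hs : h '' sphere (0:E) 1 ⊆ N)
    (h0 : h 0 ∉ N) : ¬ SimplyConnectedSpace N := by
  intro hN
  have hne : ∀ x : N, cz (h.symm x) ≠ 0 := by
    intro x
    apply cz_ne
    intro hx
    apply h0
    rw [← hx]
    simp
  let r : C(N, Circle) :=
    ⟨fun x => ⟨cz (h.symm x) / ((‖cz (h.symm x)‖ : ℝ) : ℂ), by
      show _ ∈ Metric.sphere (0 : ℂ) 1
      rw [mem_sphere_zero_iff_norm]
      have := hne x
      simp [this]⟩, by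
      refine Continuous.subtype_mk ?_ _
      refine Continuous.div ?_ ?_ ?_
      · exact cz_cont.comp (h.symm.continuous.comp continuous_subtype_val)
      · exact Complex.continuous_ofReal.comp (continuous_norm.comp (cz_cont.comp (h.symm.continuous.comp continuous_subtype_val)))
      · intro x
        have := hne x
        simpa using this⟩
  have hmem : ∀ t, h (uu t) ∈ N := fun t => hs ⟨_, uu_sphere t, rfl⟩
  let x0 : N := ⟨h (uu 0), hmem 0⟩
  let γ : Path x0 x0 :=
    { toFun := fun t => ⟨h (uu t), hmem t⟩
      continuous_toFun := by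
        refine Continuous.subtype_mk ?_ _
        exact h.continuous.comp uu_cont
      source' := rfl
      target' := by
        apply Subtype.ext
        show h (uu 1) = h (uu 0)
        simp [uu] }
  have hhom : γ.Homotopic (Path.refl x0) := SimplyConnectedSpace.paths_homotopic _ _
  have hmap := hhom.map r
  have hrγ : ∀ t : I, r (γ t) = Circle.exp (2 * Real.pi * t) := by
    intro t
    apply Subtype.ext
    show cz (h.symm (h (uu t))) / ((‖cz (h.symm (h (uu t)))‖ : ℝ) : ℂ) = _
    rw [Homeomorph.symm_apply_apply]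
    have h1 : cz (uu t) = Complex.exp (((2 * Real.pi * t : ℝ) : ℂ) * Complex.I) := by
      apply Complex.ext
      · rw [Complex.exp_ofReal_mul_I_re]; simp [cz, uu]
      · rw [Complex.exp_ofReal_mul_I_im]; simp [cz, uu]
    rw [h1, Complex.norm_exp_ofReal_mul_I]
    simp
  let e0 : ℝ := 0
  have hx0 : r x0 = Circle.exp 0 := by
    have := hrγ 0
    simpa using this
  have key := Circle.isCoveringMap_exp.liftPath_apply_one_eq_of_homotopicRel hmap 0
    (by simpa using hx0) (by simpa using hx0)
  have l1 : Circle.isCoveringMap_exp.liftPath (γ.map r.continuous).toContinuousMap 0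
      (by simpa using hx0) = ⟨fun t : I => 2 * Real.pi * (t : ℝ), by fun_prop⟩ := by
    symm
    rw [Circle.isCoveringMap_exp.eq_liftPath_iff']
    refine ⟨?_, by simp⟩
    funext t
    simpa using (hrγ t).symm
  have l2 : Circle.isCoveringMap_exp.liftPath ((Path.refl x0).map r.continuous).toContinuousMap 0
      (by simpa using hx0) = ⟨fun t : I => 0, by fun_prop⟩ := by
    symm
    rw [Circle.isCoveringMap_exp.eq_liftPath_iff']
    refine ⟨?_, by simp⟩
    funext t
    simpa using hx0.symm
  rw [l1, l2] at key
  have : (2 * Real.pi * ((1 : I) : ℝ)) = 0 := key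
  simp at this

end Pool.Agent.V11192.Chev
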